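import Pool.Agent.Lib.MP_9cec2c_lc.LRFinal

/-!
Random CNFs of logarithmic width need dag-like Lovász-Schrijver refutations of size `2 ^ Ω(n)`,
also with all cuts of polynomial dimension.
-/

set_option autoImplicit false

namespace Pool.Agent.Results.MP_9cec2c_lc.DagLovaszSchrijver

open Pool.Agent.MP_9cec2c_lc.LovSch

/-- There is a constant `K` such that the following holds for `K ≤ n ≤ k`, `0 ≤ C` and
`K * (C + 1) * log2 k ≤ w ≤ n / K`. Consider random CNFs in `n` variables with `m` clauses,
`n * 2 ^ w ≤ m ≤ 3 ^ w`, chosen independently and uniformly among the clauses with `w` literals on
distinct variables. All but a `2 ^ (- w / K)` fraction of them are unsatisfiable, and every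
refutation of the following kind has at least `2 ^ (n / K)` lines.

A line is a disjunction of a clause, `C` counting conditions `∑ v, c v * x v ∈ T` with integers
`c v` between `-k` and `k` and any set `T` of integers, and one linear inequality with arbitrary
real coefficients. Some line is false everywhere. Each line is implied by a clause of the CNF, or
by at most `k` earlier lines, or it is a cut of dimension at most `k`, which may use any number of
earlier lines, and products of up to `k` of them.

For example, if `L i` and the `L j` are linear forms, all lines are inequalities `0 ≤ L i`, and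
`L i = g + ∑ T, g T * ∏ j ∈ T, L j` on the cube, where `T` ranges over sets of earlier lines,
`g` and the `g T` are nonnegative functions and each `g T * ∏ j ∈ T, L j` is a polynomial of degree
at most `d` on the cube, then `L i` is a cut of dimension at most `(n + 1) ^ d` (take
`h T = g T * ∏ j ∈ T, L j`). With `d = 2` and `T = {j}` these are the steps of dag-like
Lovász-Schrijver refutations, LS and LS+, where only linear lines are multiplied; quadratic lines
are not even counted here. For `k = n ^ c` the clauses have `O(log n)` literals, and there are
polynomially many of them. -/
theorem result : ∃ K : ℕ, 0 < K ∧ ∀ n k C w m : ℕ, K ≤ n → n ≤ k →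
    k ^ (K * (C + 1)) ≤ 2 ^ w → K * w ≤ n → n * 2 ^ w ≤ m → m ≤ 3 ^ w →
    2 ^ (w / K) * {f : ClauseList n m w | ¬ Hard k C (2 ^ (n / K)) (toCNF f)}.ncard ≤
      Fintype.card (ClauseList n m w) :=
  random_main

end Pool.Agent.Results.MP_9cec2c_lc.DagLovaszSchrijver
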