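import Pool.Agent.Lib.MP_9cec2c_lc.FS.Tight

/-!
Frege proofs and sums of squares. If a CNF has a pseudo-expectation of degree `D`, i.e. if the
sum-of-squares system cannot refute it in degree `2 D`, then every Frege refutation of it has total
size at least `D ^ (2 - ε)`: a Frege refutation of total size `σ` gives a sum-of-squares refutation of
degree `σ ^ (1 / 2 + o(1))`. There is no restriction on the depth of the formulas, and the lines of a
proof may be used many times. More generally there is a tradeoff between the total space `s` of a
refutation and the number `T` of its steps, `s (1 + log T) ≥ D ^ (2 - ε)`, and similar tradeoffs for the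
size of the lines and the height, or the number of lines of tree-like refutations. If `D` is linear in
the number of variables, as for random 3-CNFs, then the tradeoffs are tight up to the factor `D ^ ε`,
because exhaustive search needs only linear total space.

The main idea. Let `E` be the pseudo-expectation and `N f = √(E (f f))`. A formula `A` of size `s` has a
polynomial `P_A` of degree `√(s l) s ^ o(1)` which has the value of `A` up to an error `2 ^ (-l)`. At the
points of the cube this is well known, but this does not help, because `E` is not an average over
points. Here the polynomials are constructed so that they form an approximate homomorphism for every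
pseudo-expectation: `N ((P_(A ∧ B) - P_A P_B) f)`, and similarly for disjunctions, negations and
`P_A P_A - P_A`, is at most `2 ^ (-l) N f` for all `f` of low degree. The formula is cut into parts of size
`M` in a constant number of levels. For each part a polynomial of degree `√M` comes from the powers of
a product of two reflections, and it is applied to elements which are almost idempotent. In the last
level the elements are rounded by a power series `∑ C(2t-1, t) (p - p²) ^ t (2p - 1) z ^ t`, which is
exactly idempotent modulo `1 - z`, so that a factor `√l` and not `l` is paid for the error `2 ^ (-l)`.

A sound rule cannot increase the sum of the `E (1 - P_A)` by more than a small error, because a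
nonnegative function on `{0,1} ^ r` is a square. For proofs in which lines are used many times this is
not sufficient. Let `Q` be the polynomial of the conjunction of all formulas in the memory. Then
`(1 - P_B) Q` is small for each formula `B` inferred from the memory, because `f ↦ E (Q Q f)` has all
properties of a pseudo-expectation that are needed. So the errors of the steps add up, and
`l = O(log T)` suffices for `T` steps.

For the upper bound in memory the state of the exhaustive search is a formula of size `N + 1` which
says that the assignment is not smaller than the current one in the lexicographic order.
-/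

set_option autoImplicit false

open Finset

namespace Pool.Agent.Results.MP_9cec2c_lc.FregeSize

open Pool.Agent.MP_9cec2c_lc.SL

/-- A Frege system is a finite set `S` of sound schematic rules for formulas with negations,
conjunctions, disjunctions, implications and constants; often it is also required to be
implicationally complete. The size of a formula is the number of occurrences of variables and
constants.

(1) There are finite sets of sound rules that are implicationally complete.

(2) For every `ε > 0` and every finite set `S` of sound rules there is `D₀` such that the following
holds for every CNF `F` that has a pseudo-expectation of degree `D ≥ D₀`, if the clauses have less than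
`D / 8` literals. A refutation of `F` may use all formulas of size at most `D / 8` that are implied by a
single clause of `F`, and it ends with the constant false or with the negation of a conjunction of
such formulas. This contains the refutations of the clauses of `F` and the proofs of the tautology
`¬ F`.

(A) Every refutation of `F` has total size at least `D ^ (2 - ε)`.

(B) If a refutation of `F` in memory has `T` steps and the total size of the formulas in the memory is
always at most `s`, then `s (1 + log T) ≥ D ^ (2 - ε)`. The memory is empty at the beginning; in one step
any number of formulas may be erased, and any number of hypotheses and of formulas that follow from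
formulas in the memory by rules may be added.

(C) If a refutation of `F` with any number of lines has height `h` and lines of size at most `s`, then
`(h + 1) s ≥ D ^ (2 - ε)`.

(D) If a tree-like refutation of `F` has `n` lines of size at most `s`, then
`s (1 + log n) ≥ D ^ (2 - ε)`.

(3) Consider CNFs with `Δ N` random clauses, each with three distinct variables, in `N` variables. For
some `κ > 0`, with probability `1 - O(1 / N)` the CNF has a pseudo-expectation of degree `κ N`, and
(A), (B), (C), (D) hold with `N ^ (2 - ε)`. If `Δ ≥ 6`, then it is unsatisfiable with probability at
least `1 - q ^ N`, where `q < 1`.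

(4) Let `S` be implicationally complete. Every unsatisfiable CNF in `N` variables, with clauses of at
most `N` literals, has a refutation with total space at most `C N` and at most `2 ^ (C N)` steps, a
refutation of height at most `C N` with lines of size at most `C N`, and a tree-like refutation with at
most `2 ^ (C N)` lines of size at most `C N`. So for random 3-CNFs the least values of `s (1 + log T)`,
`(h + 1) s` and `s (1 + log n)` are `N ^ (2 + o(1))`. -/
theorem result :
    (∃ S : Set Rule, S.Finite ∧ (∀ R ∈ S, R.Sound) ∧ ImplComplete S) ∧
    (∀ ε : ℝ, 0 < ε → ∀ S : Set Rule, S.Finite → (∀ R ∈ S, R.Sound) → ∃ D₀ : ℕ,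
      ∀ (X : Type) (F : List (List (X × Bool))) (D : ℕ), D₀ ≤ D → (∀ C ∈ F, C.length < D / 8) →
        HasPE F D → LowerBound S (D / 8) F ((D : ℝ) ^ (2 - ε))) ∧
    (∀ Δ : ℕ, (∃ κ : ℝ, 0 < κ ∧
        (∃ C : ℝ, ∀ N : ℕ, 1 ≤ N →
          prob (fun c : Fin (Δ * N) → Clause3 N => ¬ HasPE (cnf3 c) ⌊κ * N⌋₊) ≤ C / N) ∧
        ∀ ε : ℝ, 0 < ε → ∀ S : Set Rule, S.Finite → (∀ R ∈ S, R.Sound) → ∃ C : ℝ,
          ∀ N : ℕ, 1 ≤ N → prob (fun c : Fin (Δ * N) → Clause3 N =>
            ¬ LowerBound S (⌊κ * N⌋₊ / 8) (cnf3 c) ((N : ℝ) ^ (2 - ε))) ≤ C / N) ∧
      (6 ≤ Δ → ∃ q : ℝ, q < 1 ∧ 0 ≤ q ∧ ∀ N : ℕ, 3 ≤ N →
        prob (fun c : Fin (Δ * N) → Clause3 N =>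
          ∃ x : Fin N → Bool, ∀ C ∈ cnf3 c, ∃ l ∈ C, x l.1 = l.2) ≤ q ^ N)) ∧
    ∀ S : Set Rule, ImplComplete S → ∃ C : ℕ, ∀ (X : Type) [Fintype X]
      (F : List (List (X × Bool))) (N : ℕ), 1 ≤ N → Fintype.card X ≤ N →
      (∀ C ∈ F, C.length ≤ N) → (∀ x : X → Bool, ∃ C ∈ F, ∀ l ∈ C, x l.1 ≠ l.2) →
      UpperBound S F (C * N) :=
  ⟨exists_frege, lower_bound, fun Δ => ⟨rand_bound Δ, rc_unsat Δ⟩, upper_bound⟩

end Pool.Agent.Results.MP_9cec2c_lc.FregeSize
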