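import Pool.Agent.Lib.MP_9cec2c_lc.SL.ShMain
import Pool.Agent.Lib.MP_9cec2c_lc.SL.FT
import Pool.Agent.Lib.MP_9cec2c_lc.SL.Cpl
import Pool.Agent.Lib.MP_9cec2c_lc.SL.UcE

/-!
The exact tradeoff between the size of the lines and the number of lines in refutations of Tseitin
formulas in Frege systems, without any bound on the depth of the formulas.
-/

set_option autoImplicit false

open Finset

namespace Pool.Agent.Results.MP_9cec2c_lc.FregeTradeoff

open Pool.Agent.MP_9cec2c_lc.SL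

/-- The lines `L` refute the CNF `F`: either they form a derivation by the rules in `S` from formulas
of size at most `b`, each implied by a single clause of `F`, and `ff` is a line, or they form a proof
(without hypotheses) and some line is the negation of a conjunction of such formulas. -/
def Refutes {X : Type} (S : Set Rule) (b : ℕ) (F : List (List (X × Bool))) {l : ℕ}
    (L : Fin l → Form X) : Prop :=
  IsDerivation S (Hyp b F) L ∧ (∃ i, L i = Form.ff) ∨
    IsDerivation S ∅ L ∧ ∃ i φ, IsConj (Hyp b F) φ ∧ L i = Form.neg φ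

/-- `N = 2 ^ m`. The unsatisfiable CNF `FT m` has `22 * N` variables, at least `N / 2` of which occur
(`m ≥ 1`), and at most `2 ^ 44 * N` clauses of width at most `44`.

Lower bound: for every finite set `S` of sound rules over NOT, AND, OR, IMPLIES and constants, for every
`b` and `ε > 0`, if `m` is large, then every refutation of `FT m` whose lines have size at most `s`
(`s ≥ N`) has `l` lines with `s * (1 + log l) ≥ N ^ (2 - ε)`; and its total size is at least
`N ^ (2 - ε)`.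

Upper bound: for every implicationally complete set `S` of rules (there is a finite sound one) there is
`K` such that for all `m` and `1 ≤ k ≤ N` there is a refutation with at most `K * N ^ 2 * 2 ^ k` lines
of size at most `K * N ^ 2 / k`, and there is a refutation of total size at most
`K * N ^ 2 * (m + 1)`. -/
theorem result :
    (∃ S : Set Rule, S.Finite ∧ (∀ R ∈ S, R.Sound) ∧ ImplComplete S) ∧
    (∀ m : ℕ, Fintype.card (Em m) = 22 * 2 ^ m ∧
      (∀ x : Em m → Bool, ∃ C ∈ FT m, ∀ l ∈ C, x l.1 ≠ l.2) ∧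
      (∀ C ∈ FT m, C.length ≤ 44) ∧ (FT m).length ≤ 2 ^ 44 * 2 ^ m ∧
      (1 ≤ m → 2 ^ m ≤ 2 * {e : Em m | ∃ C ∈ FT m, ∃ l ∈ C, l.1 = e}.ncard)) ∧
    (∀ S : Set Rule, S.Finite → (∀ R ∈ S, R.Sound) → ∀ (b : ℕ) (ε : ℝ), 0 < ε →
      ∃ m₀ : ℕ, ∀ m, m₀ ≤ m → ∀ (l : ℕ) (L : Fin l → Form (Em m)), Refutes S b (FT m) L →
        (∀ s : ℕ, 2 ^ m ≤ s → (∀ i, (L i).size ≤ s) →
          ((2 : ℝ) ^ m) ^ (2 - ε) ≤ s * (1 + Real.log l)) ∧
        ((2 : ℝ) ^ m) ^ (2 - ε) ≤ ∑ i, ((L i).size : ℝ)) ∧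
    (∀ S : Set Rule, ImplComplete S → ∃ K : ℕ, ∀ m : ℕ,
      (∀ k : ℕ, 1 ≤ k → k ≤ 2 ^ m → ∃ (l : ℕ) (L : Fin l → Form (Em m)),
        IsDerivation S {φ | ∃ C ∈ FT m, φ = clause C} L ∧ (∃ i, L i = Form.ff) ∧
        (∀ i, (L i).size * k ≤ K * (2 ^ m) ^ 2) ∧ l ≤ K * (2 ^ m) ^ 2 * 2 ^ k) ∧
      (∃ (l : ℕ) (L : Fin l → Form (Em m)),
        IsDerivation S {φ | ∃ C ∈ FT m, φ = clause C} L ∧ (∃ i, L i = Form.ff) ∧
        ∑ i, (L i).size ≤ K * (2 ^ m) ^ 2 * (m + 1))) := by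
  classical
  refine ⟨exists_frege, fun m => ⟨card_Em m, FT_unsat m, FT_width m, FT_length m, fun hm => ?_⟩,
    ?_, ?_⟩
  · have h := FT_vars m hm
    rw [Set.ncard_eq_toFinset_card']
    convert h using 3
    ext e
    simp
  · intro S hS hs b ε hε
    obtain ⟨m₁, h₁⟩ := sharp_lower ε hε S hS hs b
    obtain ⟨m₂, h₂⟩ := sharp_size ε hε S hS hs b
    refine ⟨max m₁ m₂, fun m hm l L hL => ⟨fun s hs hLs => ?_, ?_⟩⟩
    · exact h₁ m (le_of_max_le_left hm) _ s l L hs hLs hL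
    · exact h₂ m (le_of_max_le_right hm) _ l L hL
  · intro S hS
    obtain ⟨C₁, hC₁⟩ := upper_complete 44 S hS
    obtain ⟨C₂, hC₂⟩ := upper_total 44 S hS
    have hN : ∀ m : ℕ, (22 * 2 ^ m) ^ 2 = 484 * (2 ^ m) ^ 2 := fun m => by ring
    refine ⟨484 * C₁ + 484 * 6 * C₂, fun m => ⟨fun k hk hk' => ?_, ?_⟩⟩
    · obtain ⟨l, L, hd, hf, hs, hl⟩ := hC₁ (Vm m) (Em m) (Gm m) (pt fun _ => false) (22 * 2 ^ m) k
        (Gm_deg m) (sum_pt _) (by rw [card_Vm]; omega) (card_Em m).le hk (by omega)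
      refine ⟨l, L, hd, hf, fun i => (hs i).trans ?_, hl.trans ?_⟩
      · rw [hN]
        calc C₁ * (484 * (2 ^ m) ^ 2) = 484 * C₁ * (2 ^ m) ^ 2 := by ring
          _ ≤ _ := Nat.mul_le_mul_right _ (Nat.le_add_right _ _)
      · rw [hN]
        refine Nat.mul_le_mul_right _ ?_
        calc C₁ * (484 * (2 ^ m) ^ 2) = 484 * C₁ * (2 ^ m) ^ 2 := by ring
          _ ≤ _ := Nat.mul_le_mul_right _ (Nat.le_add_right _ _)
    · obtain ⟨l, L, hd, hf, -, hs⟩ := hC₂ (Vm m) (Em m) (Gm m) (pt fun _ => false) (22 * 2 ^ m)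
        (Gm_deg m) (sum_pt _) (by rw [card_Vm]; omega) (card_Em m).le
      refine ⟨l, L, hd, hf, hs.trans ?_⟩
      have h1 : Nat.log 2 (22 * 2 ^ m) + 1 ≤ 6 * (m + 1) := by
        have h2 : Nat.log 2 (22 * 2 ^ m) < m + 5 := by
          refine Nat.log_lt_of_lt_pow (by positivity) ?_
          rw [pow_add]
          have : 0 < 2 ^ m := by positivity
          omega
        omega
      rw [hN]
      calc C₂ * (484 * (2 ^ m) ^ 2) * (Nat.log 2 (22 * 2 ^ m) + 1)
          ≤ C₂ * (484 * (2 ^ m) ^ 2) * (6 * (m + 1)) := Nat.mul_le_mul_left _ h1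
        _ = 484 * 6 * C₂ * (2 ^ m) ^ 2 * (m + 1) := by ring
        _ ≤ _ := Nat.mul_le_mul_right _ (Nat.mul_le_mul_right _ (Nat.le_add_left _ _))

end Pool.Agent.Results.MP_9cec2c_lc.FregeTradeoff
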