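import Pool.Agent.Lib.MP_9cec2c_lc.SLT.LowSize
import Pool.Agent.Lib.MP_9cec2c_lc.SLT.LowLine
import Pool.Agent.Lib.MP_9cec2c_lc.SLT.UFin
import Pool.Agent.Lib.MP_9cec2c_lc.SLT.Exp
import Pool.Agent.Lib.MP_9cec2c_lc.SL.FT
import Pool.Agent.Lib.MP_9cec2c_lc.SL.UcF

/-!
Frege refutations of the Tseitin formulas of all connected graphs of bounded degree, without any bound on
the depth of the formulas: the tradeoff between the size of the lines and the logarithm of the number of
lines is determined, up to factors `w ^ o(1)`, by the treewidth `w` (if there are at most `2 ^ (w ^ o(1))`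
vertices).

The main idea of the lower bound. Let `G` be a connected multigraph without a tree decomposition with
bags of at most `w` vertices. Then some `2 ^ m ≥ w / 3` vertices of `G` are well linked: all cuts of `G` which
separate `i` from `j` of them have at least `min i j` edges. By Menger's theorem each partition of these
vertices into two halves comes from a perfect matching by edge disjoint paths of `G`. By a version of
the cut-matching game of Khandekar, Rao and Vazirani `O(m ^ 2)` such matchings suffice to mix: the
random walk which traverses each of them with probability `1 / 2` is nearly uniform at the end. The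
edges of the expander `G_m` are routed at random along these walks. A union bound over the possible
patterns of an edge of `G` in the matchings (and not over the edges of `G`) shows that some choice has
congestion `O(m ^ 3)`, for every number of vertices of `G`. Replacing the edge variables of `G` by parities
of at most `O(m ^ 3)` edge variables of `G_m` turns a refutation of the Tseitin formula of `G` into a
refutation for `G_m`, in which the hypotheses are implied by the parity constraint of a single vertex.

The lower bound for `G_m`. Formulas of size `s` are approximated by polynomials of degree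
`√(s l) s ^ o(1)` with errors `2 ^ (-l)`, which form an approximate homomorphism for the
pseudo-expectation of `G_m`. Random embeddings of `G_m'` into `G_m`, `m' < m`, reduce the degrees to a
constant. Then by hypercontractivity small errors are equal to 0, and nothing adds up in a proof, even
if its lines are used many times.

The upper bound. Along a tree decomposition the edges get `O(w)` slots, such that the edges at a bag
have different slots. The lines say that the vector of the parities of `k` blocks of slots does not
have a given value, and the lines of two disjoint sets of vertices are merged into the lines of the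
union.
-/

set_option autoImplicit false

open Finset

namespace Pool.Agent.Results.MP_9cec2c_lc.FregeTreewidth

open Pool.Agent.MP_9cec2c_lc.SL Pool.Agent.MP_9cec2c_lc.SLT

/-- The lines `L` refute the CNF `F`: either they form a derivation by the rules in `S` from formulas
of size at most `b`, each implied by a single clause of `F`, and `ff` is a line, or they form a proof
(without hypotheses) and some line is the negation of a conjunction of such formulas. -/
def Refutes {X : Type} (S : Set Rule) (b : ℕ) (F : List (List (X × Bool))) {l : ℕ}
    (L : Fin l → Form X) : Prop :=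
  IsDerivation S (Hyp b F) L ∧ (∃ i, L i = Form.ff) ∨
    IsDerivation S ∅ L ∧ ∃ i φ, IsConj (Hyp b F) φ ∧ L i = Form.neg φ

/-- The lines `L` are a derivation of `ff` by the rules in `S` from the clauses of `F`. -/
def RefutesCNF {X : Type} (S : Set Rule) (F : List (List (X × Bool))) {l : ℕ}
    (L : Fin l → Form X) : Prop :=
  IsDerivation S {φ | ∃ C ∈ F, φ = clause C} L ∧ ∃ i, L i = Form.ff

/-- Some edge leaves each set of vertices which is not empty and does not contain all vertices. -/
def Connected {V E : Type} (G : MG V E) : Prop :=
  ∀ U : Set V, U.Nonempty → U ≠ Set.univ → ∃ e, ¬ (G.src e ∈ U ↔ G.dst e ∈ U)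

/-- The graph has a tree decomposition in which all bags have at most `w` vertices. -/
def HasTreeDec {V E : Type} (G : MG V E) (w : ℕ) : Prop :=
  Pool.Agent.MP_9cec2c_lc.TT.HasTreeDec G.src G.dst w

/-- (0) There are finite sets of sound rules that are implicationally complete.

(1) Lower bound. Let `S` be a finite set of sound rules over NOT, AND, OR, IMPLIES and constants, `b` a
number and `ε > 0`. If `w` is large, then for every connected multigraph `G` (with any number of
vertices) which has no tree decomposition with bags of at most `w` vertices, and all charges with odd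
sum: every refutation of the Tseitin formula of `G` with `l` lines of size at most `s`
satisfies `s * (1 + log l) ≥ w ^ (2 - ε)` and `s ≥ w ^ (1 - ε)`, and its total size is at least
`w ^ (2 - ε)`. (If the degrees of `G` are less than `b`, then the clauses themselves are allowed as hypotheses,
as the clauses of a vertex of degree `d` have size `d + 1`.)

(2) Upper bound. Let `S` be implicationally complete, `G` a multigraph of degree at most `Δ` and let the
sum of the charges be odd. If `G` has a tree decomposition with bags of at most `w` vertices, then for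
`1 ≤ k ≤ w` there is a refutation with at most `C |V| w 4 ^ k` lines of size at most `C w ^ 2 / k`. If `G` has
at most `N` vertices and at most `N` edges, then there is a refutation of total size at most
`C N ^ 2 (log N + 1)`.

(3) The multigraph `G_m` has `N = 2 ^ m` vertices, `22 N` edges and degree at most `44`, it is connected, and it
has no tree decomposition with bags of at most `N / 200` vertices. -/
theorem result :
    (∃ S : Set Rule, S.Finite ∧ (∀ R ∈ S, R.Sound) ∧ ImplComplete S) ∧
    (∀ S : Set Rule, S.Finite → (∀ R ∈ S, R.Sound) → ∀ (b : ℕ) (ε : ℝ), 0 < ε →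
      ∃ w₀ : ℕ, ∀ w, w₀ ≤ w → ∀ (V E : Type) [Fintype V] [Fintype E] (G : MG V E),
        Connected G → ¬ HasTreeDec G w → ∀ γ : V → ZMod 2, ∑ v, γ v = 1 →
        ∀ (l : ℕ) (L : Fin l → Form E), Refutes S b (G.tseitin γ) L →
          (∀ s : ℕ, (∀ i, (L i).size ≤ s) →
            (w : ℝ) ^ (2 - ε) ≤ s * (1 + Real.log l) ∧ (w : ℝ) ^ (1 - ε) ≤ s) ∧
          (w : ℝ) ^ (2 - ε) ≤ ∑ i, ((L i).size : ℝ)) ∧
    (∀ S : Set Rule, ImplComplete S → ∀ Δ : ℕ, ∃ C : ℕ, ∀ (V E : Type) [Fintype V] [Fintype E]
      (G : MG V E), G.DegLE Δ → ∀ γ : V → ZMod 2, ∑ v, γ v = 1 →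
        (∀ w k : ℕ, HasTreeDec G w → 1 ≤ k → k ≤ w → ∃ (l : ℕ) (L : Fin l → Form E),
          RefutesCNF S (G.tseitin γ) L ∧ (∀ i, (L i).size * k ≤ C * w ^ 2) ∧
          l ≤ C * Fintype.card V * w * 4 ^ k) ∧
        (∀ N : ℕ, Fintype.card V ≤ N → Fintype.card E ≤ N → ∃ (l : ℕ) (L : Fin l → Form E),
          RefutesCNF S (G.tseitin γ) L ∧
          ∑ i, (L i).size ≤ C * N ^ 2 * (Nat.log 2 N + 1))) ∧
    (∀ m : ℕ, Fintype.card (Vm m) = 2 ^ m ∧ Fintype.card (Em m) = 22 * 2 ^ m ∧
      (Gm m).DegLE 44 ∧ Connected (Gm m) ∧ ¬ HasTreeDec (Gm m) (2 ^ m / 200)) := by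
  classical
  have conn : ∀ {V E : Type} [Fintype V] [Fintype E] (G : MG V E),
      Connected G ↔ ∀ U : Finset V, U.Nonempty → U ≠ univ → cutc G U ≠ 0 := by
    intro V E _ _ G
    constructor
    · intro h U h1 h2 h3
      obtain ⟨e, he⟩ := h (U : Set V) (by simpa using h1) (by
        intro h4
        apply h2
        rw [← Finset.coe_univ] at h4
        exact Finset.coe_injective h4)
      rw [cutc, Finset.card_eq_zero, Finset.filter_eq_empty_iff] at h3
      exact h3 (mem_univ e) (by simpa using he)
    · intro h U h1 h2
      by_contra hcon
      push Not at hcon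
      refine h (univ.filter fun v => v ∈ U) ?_ ?_ ?_
      · obtain ⟨v, hv⟩ := h1
        exact ⟨v, by simpa using hv⟩
      · intro h3
        apply h2
        rw [Set.eq_univ_iff_forall]
        intro v
        have := mem_univ v
        rw [← h3, mem_filter] at this
        exact this.2
      · rw [cutc, Finset.card_eq_zero, Finset.filter_eq_empty_iff]
        intro e _ h3
        apply h3
        simpa using hcon e
  refine ⟨exists_frege, ?_, ?_, fun m => ⟨card_Vm m, card_Em m, Gm_deg m, ?_, Gm_tw m⟩⟩
  · intro S hS hs b ε hε
    obtain ⟨w₁, h₁⟩ := low_all ε hε S hS hs b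
    obtain ⟨w₂, h₂⟩ := low_size ε hε S hS hs b
    refine ⟨max w₁ w₂, fun w hw V E _ _ G hG ht γ hγ l L hL => ⟨fun s hLs => ?_, ?_⟩⟩
    · exact h₁ w (le_of_max_le_left hw) V E G ((conn G).1 hG) ht γ hγ s l L hLs hL
    · exact h₂ w (le_of_max_le_right hw) V E G ((conn G).1 hG) ht γ hγ l L hL
  · intro S hS Δ
    obtain ⟨C₁, hC₁⟩ := upper_tw Δ S hS
    obtain ⟨C₂, hC₂⟩ := upper_total Δ S hS
    refine ⟨C₁ + C₂, fun V E _ _ G hG γ hγ => ⟨fun w k ht hk hk' => ?_, fun N hV hE => ?_⟩⟩
    · obtain ⟨l, L, hd, hf, hs, hl⟩ := hC₁ V E G γ w k hG ht hγ hk hk'
      refine ⟨l, L, ⟨hd, hf⟩, fun i => (hs i).trans ?_, hl.trans ?_⟩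
      · exact Nat.mul_le_mul_right _ (Nat.le_add_right _ _)
      · gcongr
        exact Nat.le_add_right _ _
    · obtain ⟨l, L, hd, hf, -, hs⟩ := hC₂ V E G γ N hG hγ hV hE
      refine ⟨l, L, ⟨hd, hf⟩, hs.trans ?_⟩
      gcongr
      exact Nat.le_add_left _ _
  · rw [conn]
    exact Gm_conn m

end Pool.Agent.Results.MP_9cec2c_lc.FregeTreewidth
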