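import Mathlib
import Pool.Agent.Lib.MP_9cec2c_lc.LinFinal

set_option autoImplicit false

/-!
No system of sound linear rewriting rules with a bounded number of variables derives all valid
linear inferences of Boolean logic.

Deciding validity of a linear inference is coNP-complete, and a complete system of linear rules
whose steps can be checked in polynomial time would give NP = coNP.  Here all systems whose rules
have at most `N` variables are excluded without any hypothesis, by an inference in
`(N + 3)^2 (N + 4)` variables.
-/

namespace Pool.Agent.Results.MP_9cec2c_lc.LinearRules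

open Pool.Agent.Lib.MP_9cec2c_lc.LinearRules

theorem result (N : ℕ) : ∃ (α : Type) (s t : Formula α),
    s.Linear ∧ t.Linear ∧ s.ConstFree ∧ t.ConstFree ∧ s.vars = t.vars ∧
    s.vars.ncard = (N + 3) ^ 2 * (N + 4) ∧
    (∀ x, s.Holds x → t.Holds x) ∧ ¬ Derives N s t := by
  obtain ⟨s, t, h⟩ := main_const N
  exact ⟨_, s, t, h⟩

end Pool.Agent.Results.MP_9cec2c_lc.LinearRules
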