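import Pool.Agent.Lib.MP_9cec2c_lc.MXCQ
import Pool.Agent.Lib.MP_9cec2c_lc.CEFinal

/-!
Counting principles in Frege systems of constant depth with counting gates modulo primes: an exact
classification, also for proofs whose lines count modulo different primes.

The counting principle modulo `r` on `M` points says that there is no partition of `M` points into
sets of `r` points, if `r` does not divide `M`. For a prime `p` let `p ^ r.factorization p` be the
largest power of `p` that divides `r`. If it does not divide `M`, there are refutations of polynomial
size with counting gates modulo `p`. If for all primes `q` in a finite set `Q` the largest power of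
`q` that divides `r` divides `M`, all refutations and all proofs of constant depth have exponential
size, even if each line may count modulo its own prime in `Q`, and even if only few sets of `r`
points are allowed.

The lower bound. Let `k` be the product of the largest powers of the primes in `Q` that divide `r`,
let `r = k s` and `M = k m`. The charges of a Tseitin contradiction modulo `s` on a complete graph
with `M ^ (1/2)` vertices and with sum `m` are turned into a partition principle on `M` points. In
the worlds of functions of random Hermitian matrices and their top eigenvectors over a field of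
characteristic zero and over finite fields of the characteristics in `Q`, in which the clauses of the
Tseitin contradiction are killed, each set of points is a function of few variables, and the clause
of a point contains a short clause that is killed. The formulas without counting gates have integer
valued approximations that are good in all worlds. The first false line without counting gates would
have a tag `q` for many vectors of the world of characteristic zero, so by semicontinuity of the rank
for many vectors of the world of characteristic `q`, which is impossible by the argument for one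
prime.

The upper bound. Let `t` be the largest power of `p` that divides `M`, less than the largest power
of `p` that divides `r`. The binomial coefficient `M choose t` is prime to `p`. Count the pairs of a
set `T` of `t` points and the set of the members of the partition that meet `T` in two ways: each `T`
gives one pair, and each set of members belongs to a multiple of `p` pairs.
-/

set_option autoImplicit false

namespace Pool.Agent.Results.MP_9cec2c_lc.MixedCounting

open Pool.Agent.MP_9cec2c_lc.FG Pool.Agent.MP_9cec2c_lc.MX

/-- Consider propositional formulas with negations, conjunctions and disjunctions of any number of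
formulas and counting gates. For a family `H` of sets of `r` points among `0, ..., M - 1`, the
formula `partitionCNF H` says that some members of `H` form a partition of the points. If `H`
consists of all sets of `r` points, this is the counting principle modulo `r` on `M` points; for
`r = 2` it says that a graph has a perfect matching.

Let `Q` be a finite set of primes, and for each `q ∈ Q` let `S q` be a finite set of rules that are
sound if counting gates count modulo `q`. In a mixed derivation each line has a tag `q ∈ Q`, its
counting gates count modulo `q`, and it is a given formula or follows by a rule in `S q` from earlier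
lines each of which has the same tag or has no counting gates.

1. For every prime `p` there is a finite set `S₀ p` of rules that are sound if counting gates count
modulo `p`, which is implicationally complete (without an increase of the depth by more than 1) and
by which, for each `r ≥ 2` with some `C`, the formula `partitionCNF H` has a refutation of depth at
most 3 and of size at most `(M + 2) ^ C`, for all `M` that are not divisible by the largest power
`p ^ r.factorization p` of `p` that divides `r` and all families `H` of sets of `r` points. With the
tag `p` for all lines this is a mixed refutation for each `Q` that contains `p`.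

2. For every `Q` and `S` as above and every `r ≥ 2` there are `c > 0` and `M₀` such that for all
`M ≥ M₀` that are divisible by `q ^ r.factorization q` for all `q ∈ Q` and not divisible by `r` there
is a family `H` with at most `r ^ 3` sets at each point such that for all families `H'` of sets of
`r` points that contain `H` (for example, the family of all sets of `r` points) the formula
`partitionCNF H'` is unsatisfiable, and in every depth `d` every mixed refutation of its clauses and
every mixed proof of its negation has size at least `exp (c M ^ (c / (d + 1)))`; in particular every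
refutation of its clauses and every proof of its negation by the rules in one of the sets `S q`. -/
theorem result :
    (∃ S₀ : ℕ → Set Rule, ∀ p : ℕ, p.Prime → (S₀ p).Finite ∧ (∀ R ∈ S₀ p, R.Sound p) ∧
      (∀ (V : Type) [Fintype V] (Φ : Set (Form V)) (φ : Form V) (d : ℕ),
        (∀ ψ ∈ Φ, ψ.Small p ∧ ψ.depth + 1 ≤ d) → φ.Small p → φ.depth + 1 ≤ d →
        (∀ x : V → Bool, (∀ ψ ∈ Φ, ψ.eval p x) → φ.eval p x) →
        ∃ (l : ℕ) (L : Fin l → Form V), IsDerivation (S₀ p) d Φ L ∧ ∃ i, L i = φ) ∧
      ∀ r : ℕ, 2 ≤ r → ∃ C : ℕ, ∀ (M : ℕ) (H : Finset (Finset (Fin M))), (∀ B ∈ H, B.card = r) →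
        ¬ p ^ r.factorization p ∣ M →
        ∃ (l : ℕ) (L : Fin l → Form {B // B ∈ H}),
          IsDerivation (S₀ p) 3 {φ | ∃ D ∈ partitionCNF H, φ = clause D} L ∧
          (∃ i, L i = falsum) ∧ size L ≤ (M + 2) ^ C ∧
          ∀ Q : Finset ℕ, p ∈ Q → MixedRefutes Q S₀ 3 (partitionCNF H) (fun _ => p) L) ∧
    ∀ Q : Finset ℕ, (∀ q ∈ Q, q.Prime) → ∀ S : ℕ → Set Rule,
      (∀ q ∈ Q, (S q).Finite ∧ ∀ R ∈ S q, R.Sound q) → ∀ r : ℕ, 2 ≤ r →
      ∃ c : ℝ, 0 < c ∧ ∃ M₀ : ℕ, ∀ M ≥ M₀, (∀ q ∈ Q, q ^ r.factorization q ∣ M) → ¬ r ∣ M →
        ∃ H : Finset (Finset (Fin M)), (∀ B ∈ H, B.card = r) ∧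
          (∀ i, (H.filter fun B => i ∈ B).card ≤ r ^ 3) ∧
          ∀ H' : Finset (Finset (Fin M)), H ⊆ H' → (∀ B ∈ H', B.card = r) →
            (∀ x : {B // B ∈ H'} → Bool, ∃ D ∈ partitionCNF H', ∀ l ∈ D, x l.1 ≠ l.2) ∧
            (∀ (d l : ℕ) (τ : Fin l → ℕ) (L : Fin l → Form {B // B ∈ H'}),
              MixedRefutes Q S d (partitionCNF H') τ L →
              Real.exp (c * (M : ℝ) ^ (c / (d + 1))) ≤ size L) ∧
            ∀ q ∈ Q, ∀ (d l : ℕ) (L : Fin l → Form {B // B ∈ H'}),
              Refutes (S q) d (partitionCNF H') L →
              Real.exp (c * (M : ℝ) ^ (c / (d + 1))) ≤ size L := by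
  refine ⟨⟨fun p => stdRules p ∪ Pool.Agent.MP_9cec2c_lc.CE.ceRules p, fun p hp =>
    ⟨(stdRules_finite p).union (Pool.Agent.MP_9cec2c_lc.CE.ceRules_finite p), ?_, ?_, ?_⟩⟩, ?_⟩
  · rintro R (hR | hR)
    · have : Fact p.Prime := ⟨hp⟩
      exact stdRules_sound p R hR
    · exact Pool.Agent.MP_9cec2c_lc.CE.ceRules_sound p R hR
  · intro V _ Φ φ d hΦ hφ hd h
    obtain ⟨l, L, h1, h2⟩ := complete hp.pos (fun ψ hψ => (hΦ ψ hψ).1) hφ
      (fun ψ hψ => (hΦ ψ hψ).2) hd h
    exact ⟨l, L, h1.mono_rules Set.subset_union_left, h2⟩
  · intro r hr
    obtain ⟨C, hC⟩ := Pool.Agent.MP_9cec2c_lc.CE.easy p hp r hr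
    refine ⟨C, fun M H hH hM => ?_⟩
    obtain ⟨l, L, h1, h2, h3⟩ := hC M H hH hM
    have h4 := h1.mono_rules (Set.subset_union_right (s := stdRules p))
    exact ⟨l, L, h4, h2, h3, fun Q hQ => mixedRefutes_of_refutes hQ (Set.Subset.refl _)
      (Or.inl ⟨h4, h2⟩)⟩
  · intro Q hQ S hS r hr
    obtain ⟨c, hc, M₀, h⟩ := partition_mixed Q hQ r hr (fun q hq => (hS q hq).1)
      fun q hq => (hS q hq).2
    refine ⟨c, hc, M₀, fun M hM hq hrM => ?_⟩
    obtain ⟨H, h1, h2, h3⟩ := h M hM hq hrM
    exact ⟨H, h1, h2, fun H' hH' hc' =>
      ⟨Pool.Agent.MP_9cec2c_lc.CQ.partition_unsat hc' hrM, h3 H' hH', fun q hq d l L hL =>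
        h3 H' hH' d l _ L (mixedRefutes_of_refutes hq (Set.Subset.refl _) hL)⟩⟩

end Pool.Agent.Results.MP_9cec2c_lc.MixedCounting
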